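import Pool.Agent.V11250.Specker

/-!
# MP_904b92_lc, Q1: answer yes

For every finite relational vocabulary with at least one symbol of arity at least two there is a
substructure closed class whose counting function is not MC-finite. The definitions are in
`Pool.Agent.V11250.SpeckerDefs`.
-/

set_option autoImplicit false

namespace Pool.Agent.Results.MP_904b92_lc.AnySpecker

open FirstOrder FirstOrder.Language Pool.Agent.V11250.SpeckerDefs Pool.Agent.V11250.Specker

/-- For every finite relational vocabulary with at least one relation symbol of arity at least
two, there is a class of finite structures which is closed under isomorphism and substructures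
and whose counting function is not MC-finite. -/
theorem result (L : FirstOrder.Language.{0, 0}) [L.IsRelational]
    [Finite (Σ n, L.Relations n)] (k : ℕ) (hk : 2 ≤ k) (hR : Nonempty (L.Relations k)) :
    ∃ C : ∀ n : ℕ, L.Structure (Fin n) → Prop,
      SubstructureClosed L C ∧ ¬ MCFinite (fun n => (Sp L C n : ℤ)) := by
  obtain ⟨R⟩ := hR
  obtain ⟨S, hS⟩ := exists_not_mc
    (fun S n => Sp L (CS L R ((fun i => i + 2) '' S)) n)
    (fun S S' h => sp_injective L hk R S S' h)
  exact ⟨CS L R ((fun i => i + 2) '' S), CS_closed R _, hS⟩

end Pool.Agent.Results.MP_904b92_lc.AnySpecker
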